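import Pool.Agent.T9h4.DJ.Stm

/-!
MP_5ff3c6_ag, Q1: pluricanonical systems of the components of intersections of diagonal
hypersurfaces of the same degree `d ≥ 2`: any dimension, any number of equations, any coefficients,
arbitrary singularities. A criterion for pseudo-effectivity, effective nonvanishing, bounds for the
Kodaira dimension, which is computed if `d ≥ 3` and there is at most one finest partition with
equality, and the weight `d (n + 1)` which attains it.
-/

set_option autoImplicit false

namespace Pool.Agent.Results.MP_5ff3c6_ag.DiagonalIntersections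

open Pool.Agent.W602.GT Pool.Agent.T9h4.NT Pool.Agent.T9h4.DI Pool.Agent.T9h4.DJ

/-- Let `V` be an irreducible component, of dimension `w`, of an intersection of diagonal
hypersurfaces `∑ a_j x_j ^ d = 0` of degree `d ≥ 2` in the complex projective space of dimension `n`,
and `K` the canonical divisor of a resolution of `V`. For a set `B` of coordinates let `r B` be the
dimension of the complex vector space of functions on the cone over `V` spanned by the `x_j ^ d`,
`j ∈ B`. Partitions are those of the set of the coordinates which do not vanish on `V`, into at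
least two blocks; `P` is tight if `d (w + 1) + |P| = d ∑ r B` (the sum is over the blocks `B`).
* `K` is pseudo-effective if and only if `d (w + 1) + |P| ≤ d ∑ r B` for all `P`, and then
  `|d K| ≠ ∅`.
* If `(d - 1) (w + 1) + |P| ≤ (d - 1) ∑ r B` for all `P` then the rational map defined by
  `|d (d - 1) K|` is generically finite onto its image.
* If `P` is tight then `κ(V) ≤ w + 1 - (1 - 1 / d) |P|`.
* Let `d ≥ 3` and `K` be pseudo-effective. If there is no tight partition then the map defined by
  `|d (n + 1) K|` is generically finite onto its image. If `P` is tight and finer than all tight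
  partitions then the image of this map has dimension `κ(V) = w + 1 - (1 - 1 / d) |P|`. In all cases
  the dimension of its image is at least the transcendence degree of the field generated by the
  ratios of those coordinates which are not separated by tight partitions. -/
theorem result {n d w : ℕ} (hd : 2 ≤ d) {ι : Type} {F : ι → MvPolynomial (Fin (n + 1)) ℂ}
    (hF : ∀ e, IsDiag d (F e)) {K : Type} [Field K] [Algebra ℂ K] {y : Fin (n + 1) → K}
    (hy : SubVar F K w y) (hcomp : IsComponent F y) :
    (Psef ℂ K w (fun _ => False) ↔ Balanced d d w y) ∧
      (Psef ℂ K w (fun _ => False) → PlurGe ℂ K w d 0) ∧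
      (Balanced (d - 1) d w y → PlurGe ℂ K w (d * (d - 1)) w) ∧
      (∀ P, Tight d w y P → ∀ m h, 0 < m → PlurGe ℂ K w m h →
        d * h + (d - 1) * P.parts.card ≤ d * (w + 1)) ∧
      (3 ≤ d → Psef ℂ K w (fun _ => False) →
        ((∀ P, ¬ Tight d w y P) → PlurGe ℂ K w (d * (n + 1)) w) ∧
        (∀ P, Tight d w y P → (∀ Q, Tight d w y Q → P ≤ Q) → ∀ h,
          d * h + (d - 1) * P.parts.card ≤ d * (w + 1) → PlurGe ℂ K w (d * (n + 1)) h) ∧
        ∀ (h : ℕ) (i j : Fin h → Fin (n + 1)), (∀ l, y (i l) ≠ 0 ∧ y (j l) ≠ 0) →
          (∀ l P, Tight d w y P → P.part (i l) = P.part (j l)) →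
          AlgebraicIndependent ℂ (fun l => y (i l) / y (j l)) →
          PlurGe ℂ K w (d * (n + 1)) h) :=
  Pool.Agent.T9h4.DJ.main hd hF hy hcomp

end Pool.Agent.Results.MP_5ff3c6_ag.DiagonalIntersections
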