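import Pool.Agent.T9h4.TW.Final

/-!
MP_5ff3c6_ag, Q1: minimal models of varieties given by sums of few high powers, or by few monomials
with highly divisible exponents. The bounds on the exponents depend only on the numbers of terms.
-/

set_option autoImplicit false

namespace Pool.Agent.Results.MP_5ff3c6_ag.DimensionFreePowers

open Pool.Agent.W602.GT

/-- Let `V` be an irreducible component of the projective variety `{F = 0}`, where every `F e` is a
sum of at most `s e` powers of linear forms with exponent at least `N e`, or where every `F e` is a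
form with at most `s e` monomials and exponents divisible by some `N' ≥ N e`. Suppose that
`s e * (s e - 1) * (s e - 2) / 2 ≤ N e` for all `e`. Either the canonical divisor of a resolution of
`V` is not pseudo-effective and `V` is birational to `B × ℙ¹` for some `B`, or it is pseudo-effective,
the Kodaira dimension of `V` is at least `0`, and `V` is of general type if all these inequalities
are strict. -/
theorem result {n : ℕ} {ι : Type} {F : ι → MvPolynomial (Fin (n + 1)) ℂ} {s N : ι → ℕ}
    (hF : (∀ e, IsPowSum (s e) (N e) (F e)) ∨ (∀ e, IsPowSparse ∅ (s e) (N e) (F e)))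
    (hN1 : ∀ e, 1 ≤ N e) (hN : ∀ e, s e * ((s e - 1) * (s e - 2) / 2) ≤ N e)
    {K : Type} [Field K] [Algebra ℂ K] {w : ℕ} {y : Fin (n + 1) → K}
    (hy : SubVar F K w y) (hcomp : IsComponent F y) :
    (¬ Psef ℂ K w (fun _ => False) ∧ Ruled ℂ K) ∨
    (Psef ℂ K w (fun _ => False) ∧ KodGe ℂ K w (fun _ => False) 0 ∧
      ((∀ e, s e * ((s e - 1) * (s e - 2) / 2) < N e) → GeneralType ℂ K w)) :=
  Pool.Agent.T9h4.TW.dichotomy hF hN1 hN hy hcomp

end Pool.Agent.Results.MP_5ff3c6_ag.DimensionFreePowers
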