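import Pool.Agent.T9h4.NT.Main

/-!
MP_5ff3c6_ag, Q1: nonvanishing and abundance, with a uniform index, for minimal models of varieties
given by nested sums of high powers. The bounds depend only on the numbers of summands: not on the
dimension, the number of equations, the exponents or the number of levels.
-/

set_option autoImplicit false

namespace Pool.Agent.Results.MP_5ff3c6_ag.NestedUniformIndex

open Pool.Agent.W602.GT Pool.Agent.T9h4.NT

/-- Let `V` be an irreducible component of a projective variety given by forms which are nested sums
of high powers of linear forms, or nested sums of high powers of monomials: any number of levels, at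
most `s` summands at each level, and exponents at least `r (2 r - 1) (2 r - 2)` at the levels with
`r` summands. Let `m = ((2 s) ^ 5)!`. Either the canonical divisor of a resolution of `V` is not
pseudo-effective and `V` is birational to `B × ℙ¹` for some `B`, or it is pseudo-effective and
`|m K_V|` is not empty, and if the inequalities for the exponents are strict then the image of the
rational map defined by `|m K_V|` has the same dimension as `V`. -/
theorem result {n : ℕ} {ι : Type} {F : ι → MvPolynomial (Fin (n + 1)) ℂ} {s : ℕ}
    (hF : HighSystem 0 s F) {K : Type} [Field K] [Algebra ℂ K] {w : ℕ} {y : Fin (n + 1) → K}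
    (hy : SubVar F K w y) (hcomp : IsComponent F y) :
    (¬ Psef ℂ K w (fun _ => False) ∧ Ruled ℂ K) ∨
    (Psef ℂ K w (fun _ => False) ∧ PlurGe ℂ K w ((2 * s) ^ 5).factorial 0 ∧
      (HighSystem 1 s F → PlurGe ℂ K w ((2 * s) ^ 5).factorial w)) :=
  Pool.Agent.T9h4.NT.main hF hy hcomp

end Pool.Agent.Results.MP_5ff3c6_ag.NestedUniformIndex
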