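import Pool.Agent.T9h4.RQ.Alb

/-! Abundance for ramified quotients of varieties with many holomorphic forms. -/

set_option autoImplicit false
set_option linter.overlappingInstances false

universe u

open FF IntermediateField Pool.Agent.W619.PQ Pool.Agent.W619.PL Pool.Agent.W619.TW
  Pool.Agent.W619.Y Pool.Agent.T9h4.RQ

namespace Pool.Agent.Results.MP_5ff3c6_ag.RamifiedQuotients

/-- Let `L` be the function field of a projective manifold `Z` of dimension `n`, let `G` be a finite
group of birational automorphisms of `Z`, and let `X` be a projective manifold birational to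
`Z / G`; its function field is `fixedField G`. No freeness of the action is assumed. Let
`p 0 + ... + p (l - 1) = n`.

Assume one of the following (for `RTCond`, the condition of Reid-Tai type, see its definition).

(A) `RTCond n 1 G e` holds, there are holomorphic covariant tensors `τ i` of degree `p i` on `Z` (for
instance holomorphic forms of degree `p i`) with nonzero exterior product, and `κ (Z) ≥ a`.

(B) `RTCond n 0 G e` holds, and the ratios of such exterior products contain `a` algebraically
independent functions.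

Then `K_X` is pseudo-effective, `κ (X) ≥ a`, and `ν (X) ≤ a` if `ν (Z) ≤ a`. In particular
`κ (Z) = ν (Z)` implies `κ (X) = ν (X)` in case (A).

For `p i = 1` the condition `RTCond n c G` follows from `AlbCond n c G`: the Albanese dimension of
`Z / g` is at most `n - ord g - c` for each `g ≠ 1` in `G` with a fixed point. -/
theorem result {L : Type u} [Field L] [Algebra ℂ L] [Algebra.EssFiniteType ℂ L] (n : ℕ)
    (hn : Algebra.trdeg ℂ L = n) (G : Subgroup (L ≃ₐ[ℂ] L)) [Finite G] :
    (∀ {l : ℕ} {p : Fin l → ℕ} (e : (Σ i, Fin (p i)) ≃ Fin n) (a : ℕ),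
      (RTCond n 1 G e ∧
        (∃ τ : ∀ i, Ten ℂ L (p i), (∀ i, Holo n (τ i)) ∧ ∃ D, wedge e τ D ≠ 0) ∧
        KodTr ℂ L n a) ∨
      (RTCond n 0 G e ∧ ∃ τ : Fin (a + 1) → ∀ i, Ten ℂ L (p i), (∀ j i, Holo n (τ j i)) ∧
        ∃ D, (∀ j, wedge e (τ j) D ≠ 0) ∧
          AlgebraicIndependent ℂ fun j : Fin a => wedge e (τ j.succ) D / wedge e (τ 0) D) →
      IsPsef ℂ (fixedField G) n (fun _ => False) ∧ KodTr ℂ (fixedField G) n a ∧
        KodGe ℂ (fixedField G) n (fun _ => False) a ∧
        (NumLe ℂ L n (fun _ => False) a → NumLe ℂ (fixedField G) n (fun _ => False) a)) ∧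
    ∀ c : ℕ, AlbCond n c G → RTCond n c G (slots n) := by
  have hK : Algebra.trdeg ℂ (fixedField G) = (n : ℕ) := by
    have hfinL : FiniteDimensional (fixedField G) L := by
      have hGal : IsGaloisGroup G (fixedField G) L := isGaloisGroup_fixed G
      exact IsGaloisGroup.finiteDimensional G (fixedField G) L
    rw [← hn, ← trdeg_add_eq ℂ (fixedField G) (A := L),
      trdeg_eq_zero (R := fixedField G) (A := L), add_zero]
  have hchar : CharZero (fixedField G) := charZero_of_alg (k := ℂ)
  refine ⟨fun e a h => ?_, fun c => rt_of_alb⟩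
  have h1 : KodTr ℂ (fixedField G) n a := by
    rcases h with ⟨hRT, ⟨τ, h1, h2⟩, ha⟩ | ⟨hRT, τ, hτ, hind⟩
    · exact kod_strict hn G e hRT τ h1 h2 a ha
    · exact kod_weak hn G e hRT a τ hτ hind
  exact ⟨psef_of_eff (eff_of_kodTr h1), h1,
    Pool.Agent.W300.PG.TRGE.main ℂ (fixedField G) n _ hK h1, (down n hn G).2.2 a⟩

end Pool.Agent.Results.MP_5ff3c6_ag.RamifiedQuotients
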